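import Pool.Agent.N500.LS.Final

/-!
# Pseudoholomorphic modifications at finitely many points: definitions
-/

set_option autoImplicit false

open Set Filter Topology MeasureTheory
open scoped Manifold ContDiff

noncomputable section

namespace Run7.h21.MDP

open Pool.Agent.Y501.SYP Pool.Agent.N500.LSP

section forms

variable {V : Type} [NormedAddCommGroup V] [NormedSpace ℝ V]
  {X Y : Type} [TopologicalSpace X] [ChartedSpace V X] [TopologicalSpace Y] [ChartedSpace V Y]

/-- the pull-back of a two-form on `X` by a map `F : Y → X` -/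
def pullF (F : Y → X) (σ : Form V X 2) : Form V Y 2 := fun y =>
  (σ (F y)).compContinuousLinearMap (mfderiv 𝓘(ℝ, V) 𝓘(ℝ, V) F y)

/-- `|dg| = O(dist(p, ·) ^ (-b))` at `p`: for every smooth function `h` on `X` the differential of
`h ∘ g`, in the chart of `Y` at `p`, is bounded off `P` by a constant times the power `-b` of the
distance to `p`. -/
def Grows (g : Y → X) (P : Set Y) (p : Y) (b : ℝ) : Prop :=
  ∀ h : X → ℝ, SmoothFun (V := V) h → ∃ C : ℝ, ∀ᶠ q in 𝓝 (chartAt V p p),
    (chartAt V p).symm q ∉ P →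
      ‖fderiv ℝ (fun q => h (g ((chartAt V p).symm q))) q‖ ≤ C * ‖q - chartAt V p p‖ ^ (-b)

/-- `|dg| = O(dist(p, ·) ^ (-b))` with some `b < 1`, or with some `b < 1 + γ / 2` if `J` is Hoelder
continuous with exponent `γ` near `p`. -/
def MildGrowth (J : End V Y) (g : Y → X) (P : Set Y) (p : Y) : Prop :=
  ∃ b : ℝ, Grows (V := V) g P p b ∧
    (b < 1 ∨ ∃ γ : ℝ, 0 < γ ∧ γ ≤ 1 ∧ HolderNear J γ p ∧ b < 1 + γ / 2)

/-- A modification `f : (X, JX) → (Y, JY)` over the finite set `P`: `f` is smooth and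
pseudoholomorphic, `g` is its smooth inverse over the complement of `P`, and the differential of
`g` grows mildly at the points of `P` (as for blow-ups, where `|dg| = O(1 / dist)`). -/
structure Modification (JX : End V X) (JY : End V Y) (f : X → Y) (g : Y → X) (P : Set Y) :
    Prop where
  smooth : ContMDiff 𝓘(ℝ, V) 𝓘(ℝ, V) ∞ f
  holo : ∀ (x : X) (v : TangentSpace 𝓘(ℝ, V) x),
    mfderiv 𝓘(ℝ, V) 𝓘(ℝ, V) f x (JX x v) = JY (f x) (mfderiv 𝓘(ℝ, V) 𝓘(ℝ, V) f x v)
  finite : P.Finite
  inv : ContMDiffOn 𝓘(ℝ, V) 𝓘(ℝ, V) ∞ g Pᶜ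
  left : ∀ x, f x ∉ P → g (f x) = x
  right : ∀ y, y ∉ P → f (g y) = y
  growth : ∀ p ∈ P, MildGrowth JY g P p

/-- the tangent vectors in the kernel of `df` with `θ(v, J v) = 0` -/
def KerNull (f : X → Y) (θ : Form V X 2) (J : End V X) (x : X)
    (v : TangentSpace 𝓘(ℝ, V) x) : Prop :=
  mfderiv 𝓘(ℝ, V) 𝓘(ℝ, V) f x v = 0 ∧ qd θ J x v = 0

/-- the points of the fibre `f = p` with a nonzero vector in the kernel of `df` which is null for
`θ` -/
def KerExc (f : X → Y) (θ : Form V X 2) (J : End V X) (p : Y) : Set X :=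
  {x | f x = p ∧ ∃ v : TangentSpace 𝓘(ℝ, V) x, v ≠ 0 ∧ KerNull f θ J x v}

/-- The exceptional fibre over `p` is positive for the class of `ζ`: for some smooth one-form `β`
the form `θ = ζ + dβ` is nonnegative on the kernel of `df` over `p`, and the components of the set
of points with a nonzero `θ`-null vector in this kernel are small at all their points (for
instance, this set is empty). -/
def PositiveOver [MeasurableSpace V] [BorelSpace V] (f : X → Y) (ζ : Form V X 2) (J : End V X)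
    (p : Y) : Prop :=
  ∃ (β : Form V X 1) (ρ : Form V X 2), IsSmooth β ∧ IsSmooth ρ ∧ IsD β ρ ∧
    (∀ x, f x = p → ∀ v : TangentSpace 𝓘(ℝ, V) x,
      mfderiv 𝓘(ℝ, V) 𝓘(ℝ, V) f x v = 0 → 0 ≤ qd (addF ζ ρ) J x v) ∧
    ∀ z ∈ KerExc f (addF ζ ρ) J p,
      SmallAt J (connectedComponentIn (KerExc f (addF ζ ρ) J p) z) z
        (KerNull f (addF ζ ρ) J z)

end forms

end Run7.h21.MDP
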