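import Pool.Agent.Run7.h21.MD.Contract
import Pool.Agent.Run7.h21.MD.Defs

/-!
# Pseudoholomorphic modifications at finitely many points: the main theorem
-/

set_option autoImplicit false

open Set Filter Topology MeasureTheory
open scoped Manifold ContDiff

noncomputable section

namespace Run7.h21.MDP

open Pool.Agent.Y501 Pool.Agent.Y501.SYP Pool.Agent.N500.LSP Run7.h21

variable {d : ℕ} {X Y : Type} [TopologicalSpace X] [ChartedSpace (ES d) X]
  [TopologicalSpace Y] [ChartedSpace (ES d) Y]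
  [IsManifold 𝓘(ℝ, ES d) ∞ X] [IsManifold 𝓘(ℝ, ES d) ∞ Y]
  [CompactSpace X] [T2Space X] [CompactSpace Y] [T2Space Y]

attribute [local instance] cs mf

variable {JX : End (ES d) X} {JY : End (ES d) Y} {f : X → Y} {g : Y → X} {P : Set Y}

theorem toInv (h : Modification JX JY f g P) : MD.Inv (d := d) f g P :=
  ⟨h.smooth, h.finite.isClosed, h.inv, h.left, h.right⟩

/-- contraction -/
theorem contraction (hd : 4 ≤ d) (hX : IsAlmostComplex JX) (hY : IsAlmostComplex JY)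
    (h : Modification JX JY f g P) (σ : Form (ES d) X 2) (hσ : IsTamingSymplectic σ JX)
    (U : Set Y) (hU : IsOpen U) (hPU : P ⊆ U) :
    ∃ (α : Form (ES d) Y 1) (η w : Form (ES d) Y 2), IsSmooth α ∧ IsSmooth η ∧ IsD α η ∧
      IsTamingSymplectic w JY ∧ ∀ y, y ∉ U → w y = addF (pullF g σ) η y := by
  obtain ⟨α, η, w, h1, h2, h3, h4, h5, h6, h7⟩ := MD.contract (d := d) (X := X) (Y := Y)
    (toInv h) hd h.finite (ac_of JX hX) (ac_of JY hY) (fun x v => h.holo x v)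
    (fun p hp => by
      obtain ⟨b, hb, hb'⟩ := h.growth p hp
      refine ⟨b, hb, ?_⟩
      rcases hb' with hb' | ⟨γ, g1, g2, g3, g4⟩
      · exact Or.inl hb'
      · exact Or.inr ⟨γ, g1, g2, hol_of g3, g4⟩)
    ((smooth_iff σ).1 hσ.smooth) ((closed_iff σ).1 hσ.closed) hσ.tames hU hPU
  exact ⟨α, η, w, (smooth_iff α).2 h1, (smooth_iff η).2 h2, (isD_iff α η).2 h3,
    symp_of ((smooth_iff w).2 h4) ((closed_iff w).2 h5) h6, h7⟩

theorem qd_pull (h : Modification JX JY f g P) (τ : Form (ES d) Y 2) (x : X)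
    (v : TangentSpace 𝓘(ℝ, ES d) x) :
    qd (pullF f τ) JX x v = qd τ JY (f x) (mfderiv 𝓘(ℝ, ES d) 𝓘(ℝ, ES d) f x v) := by
  have h1 : qd (pullF f τ) JX x v = τ (f x) ![mfderiv 𝓘(ℝ, ES d) 𝓘(ℝ, ES d) f x v,
      mfderiv 𝓘(ℝ, ES d) 𝓘(ℝ, ES d) f x (JX x v)] :=
    MD.pull_apply (d := d) (X := Y) (Y := X) f τ x v (JX x v)
  rw [h1, h.holo]
  rfl

theorem qd_zero (σ : Form (ES d) X 2) (J : End (ES d) X) (x : X) :
    qd σ J x 0 = 0 := (σ x).map_coord_zero 0 rfl

/-- blowing up -/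
theorem blowup (hX : IsAlmostComplex JX) (h : Modification JX JY f g P)
    (τ : Form (ES d) Y 2) (ζ : Form (ES d) X 2) (hτ : IsTamingSymplectic τ JY)
    (hζ : IsSmooth ζ) (hζc : IsClosedForm ζ) (hp : ∀ p ∈ P, PositiveOver f ζ JX p) :
    ∃ (α : Form (ES d) X 1) (ρ : Form (ES d) X 2), IsSmooth α ∧ IsSmooth ρ ∧ IsD α ρ ∧
      ∃ t₀ : ℝ, 0 < t₀ ∧ ∀ t : ℝ, 0 < t → t ≤ t₀ →
        IsTamingSymplectic (comb (pullF f τ) t (addF ζ ρ)) JX := by
  obtain ⟨hs, hc⟩ := Pool.Agent.Y604.SY.t_PULL d d X Y f τ h.smooth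
    ((smooth_iff τ).1 hτ.smooth) ((closed_iff τ).1 hτ.closed)
  have hnull : ∀ (x : X) (v : TangentSpace 𝓘(ℝ, ES d) x), qd (pullF f τ) JX x v = 0 ↔
      mfderiv 𝓘(ℝ, ES d) 𝓘(ℝ, ES d) f x v = 0 := by
    intro x v
    rw [qd_pull h]
    constructor
    · intro h0
      by_contra hne
      exact absurd h0 (hτ.tames (f x) _ hne).ne'
    · intro h0
      rw [h0]
      exact qd_zero τ JY (f x)
  have hpos : ∀ (x : X) (v : TangentSpace 𝓘(ℝ, ES d) x), 0 ≤ qd (pullF f τ) JX x v := by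
    intro x v
    rw [qd_pull h]
    rcases eq_or_ne (mfderiv 𝓘(ℝ, ES d) 𝓘(ℝ, ES d) f x v) 0 with h0 | h0
    · rw [h0]
      exact (qd_zero τ JY (f x)).ge
    · exact (hτ.tames (f x) _ h0).le
  refine twoLevel (m := d) JX hX f h.smooth (pullF f τ) ζ ((smooth_iff _).2 hs)
    ((closed_iff _).2 hc) hζ hζc hpos (fun x v h0 => (hnull x v).1 h0) fun y => ?_
  by_cases hy : y ∈ P
  · obtain ⟨β, ρ, h1, h2, h3, h4, h5⟩ := hp y hy
    have hnul : ∀ x : X, Null (pullF f τ) (addF ζ ρ) JX x = KerNull f (addF ζ ρ) JX x := by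
      intro x
      funext v
      exact propext (and_congr_left fun _ => hnull x v)
    have hE : Exc (pullF f τ) (addF ζ ρ) JX (f ⁻¹' {y}) = KerExc f (addF ζ ρ) JX y := by
      ext x
      unfold Exc KerExc
      simp only [mem_ofPred_eq, mem_preimage, mem_singleton_iff, hnul]
    refine ⟨β, ρ, h1, h2, h3, fun x hx v hv => h4 x hx v ((hnull x v).1 hv), ?_⟩
    rw [hE]
    intro z hz
    rw [hnul]
    exact h5 z hz
  · have hinj : ∀ x ∈ f ⁻¹' {y}, ∀ v : TangentSpace 𝓘(ℝ, ES d) x,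
        qd (pullF f τ) JX x v = 0 → v = 0 := by
      intro x hx v hv
      have hfx : f x ∉ P := by
        rw [show f x = y from hx]
        exact hy
      have h1 := (toInv h).dg_df hfx v
      have h2 : MD.D (d := d) f x v = 0 := (hnull x v).1 hv
      rw [h2, map_zero] at h1
      exact h1.symm
    refine ⟨0, 0, (smooth_iff _).2 SY.IsSmooth.zero, (smooth_iff _).2 SY.IsSmooth.zero,
      (isD_iff _ _).2 ?_, fun x hx v hv => ?_, fun z hz => ?_⟩
    · exact SY.IsD.zero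
    · rw [hinj x hx v hv]
      exact (qd_zero _ JX x).ge
    · obtain ⟨hzf, v, hv, hv0, -⟩ := hz
      exact absurd (hinj z hzf v hv0) hv

/-- **Modifications at finitely many points.** -/
theorem main (hd : 4 ≤ d) (hX : IsAlmostComplex JX) (hY : IsAlmostComplex JY)
    (h : Modification JX JY f g P) :
    (∃ σ : Form (ES d) X 2, IsTamingSymplectic σ JX) ↔
      (∃ τ : Form (ES d) Y 2, IsTamingSymplectic τ JY) ∧
      ∃ ζ : Form (ES d) X 2, IsSmooth ζ ∧ IsClosedForm ζ ∧ ∀ p ∈ P, PositiveOver f ζ JX p := by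
  constructor
  · rintro ⟨σ, hσ⟩
    obtain ⟨α, η, w, -, -, -, hw, -⟩ := contraction hd hX hY h σ hσ univ isOpen_univ
      (subset_univ _)
    refine ⟨⟨w, hw⟩, σ, hσ.smooth, hσ.closed, fun p _ => ?_⟩
    refine ⟨0, 0, (smooth_iff _).2 SY.IsSmooth.zero, (smooth_iff _).2 SY.IsSmooth.zero,
      (isD_iff _ _).2 ?_, fun x _ v _ => ?_, fun z hz => ?_⟩
    · exact SY.IsD.zero
    · have e : qd (addF σ 0) JX x v = qd σ JX x v := by
        unfold qd addF
        rw [show σ x + (0 : Form (ES d) X 2) x = σ x from add_zero (σ x)]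
      rw [e]
      rcases eq_or_ne v 0 with rfl | hv
      · exact (qd_zero σ JX x).ge
      · exact (hσ.tames x v hv).le
    · obtain ⟨-, v, hv, -, hv0⟩ := hz
      have e : qd (addF σ 0) JX z v = qd σ JX z v := by
        unfold qd addF
        rw [show σ z + (0 : Form (ES d) X 2) z = σ z from add_zero (σ z)]
      rw [e] at hv0
      exact absurd hv0 (hσ.tames z v hv).ne'
  · rintro ⟨⟨τ, hτ⟩, ζ, hζ, hζc, hp⟩
    obtain ⟨α, ρ, -, -, -, t₀, ht₀, ht⟩ := blowup hX h τ ζ hτ hζ hζc hp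
    exact ⟨_, ht t₀ ht₀ le_rfl⟩

end Run7.h21.MDP
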