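import Pool.Agent.Run7.h21.MD.Tools

/-!
# Pseudoholomorphic modifications at finitely many points: contraction
-/

set_option autoImplicit false

open Set Filter Topology MeasureTheory
open scoped Manifold ContDiff

noncomputable section

namespace Run7.h21.MD

open Pool.Agent.Y501.SY
open Pool.Agent.Y455.SY (A B AB BA A_surj Q Q_eq)
open Pool.Agent.Y929.SY (ev_of_chart ev_to_chart near pb_apply2)
open Pool.Agent.N500.LS (G2 GrowB HolAt mainS2)
open Pool.Agent.Q186.SG (GrowAt)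

variable {d : ℕ} {X Y : Type} [TopologicalSpace X] [ChartedSpace (E d) X]
  [TopologicalSpace Y] [ChartedSpace (E d) Y]

/-- growth of the differential of `g` at `p` -/
def Grows (g : Y → X) (P : Set Y) (p : Y) (b : ℝ) : Prop :=
  ∀ h : X → ℝ, SmoothFun (d := d) h → ∃ C : ℝ, ∀ᶠ q in 𝓝 (chartAt (E d) p p),
    (chartAt (E d) p).symm q ∉ P →
      ‖fderiv ℝ (fun q => h (g ((chartAt (E d) p).symm q))) q‖ ≤
        C * ‖q - chartAt (E d) p p‖ ^ (-b)

/-- a map which is inverse to `f` off the set `P` -/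
structure Inv (f : X → Y) (g : Y → X) (P : Set Y) : Prop where
  smooth : ContMDiff (𝓡 d) (𝓡 d) ∞ f
  closed : IsClosed P
  inv : ContMDiffOn (𝓡 d) (𝓡 d) ∞ g Pᶜ
  left : ∀ x, f x ∉ P → g (f x) = x
  right : ∀ y, y ∉ P → f (g y) = y

section

variable {f : X → Y} {g : Y → X} {P : Set Y}

theorem Inv.mdg (h : Inv (d := d) f g P) {y : Y} (hy : y ∉ P) :
    MDifferentiableAt (𝓡 d) (𝓡 d) g y :=
  (h.inv.contMDiffAt (h.closed.isOpen_compl.mem_nhds hy)).mdifferentiableAt (by simp)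

theorem Inv.mdf (h : Inv (d := d) f g P) (x : X) : MDifferentiableAt (𝓡 d) (𝓡 d) f x :=
  h.smooth.mdifferentiableAt (by simp)

theorem Inv.df_dg (h : Inv (d := d) f g P) {y : Y} (hy : y ∉ P) (v : E d) :
    D (d := d) f (g y) (D (d := d) g y v) = v := by
  have h1 : mfderiv (𝓡 d) (𝓡 d) (f ∘ g) y =
      (mfderiv (𝓡 d) (𝓡 d) f (g y)).comp (mfderiv (𝓡 d) (𝓡 d) g y) :=
    mfderiv_comp y (h.mdf (g y)) (h.mdg hy)
  have h2 : f ∘ g =ᶠ[𝓝 y] id := by
    filter_upwards [h.closed.isOpen_compl.mem_nhds hy] with z hz using h.right z hz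
  have h3 : mfderiv (𝓡 d) (𝓡 d) (f ∘ g) y = mfderiv (𝓡 d) (𝓡 d) (id : Y → Y) y :=
    h2.mfderiv_eq
  have h4 : ((mfderiv (𝓡 d) (𝓡 d) f (g y)).comp (mfderiv (𝓡 d) (𝓡 d) g y) : E d →L[ℝ] E d) v =
      v := by
    have h5 : (mfderiv (𝓡 d) (𝓡 d) (id : Y → Y) y : E d →L[ℝ] E d) =
        ContinuousLinearMap.id ℝ (E d) := mfderiv_id
    have h6 : ((mfderiv (𝓡 d) (𝓡 d) f (g y)).comp (mfderiv (𝓡 d) (𝓡 d) g y) :
        E d →L[ℝ] E d) = ContinuousLinearMap.id ℝ (E d) := (h1.symm.trans h3).trans h5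
    rw [h6]
    rfl
  exact h4

theorem Inv.dg_df (h : Inv (d := d) f g P) {x : X} (hx : f x ∉ P) (u : E d) :
    D (d := d) g (f x) (D (d := d) f x u) = u := by
  have h1 : mfderiv (𝓡 d) (𝓡 d) (g ∘ f) x =
      (mfderiv (𝓡 d) (𝓡 d) g (f x)).comp (mfderiv (𝓡 d) (𝓡 d) f x) :=
    mfderiv_comp x (h.mdg hx) (h.mdf x)
  have hopen : IsOpen (f ⁻¹' Pᶜ) := h.closed.isOpen_compl.preimage h.smooth.continuous
  have h2 : g ∘ f =ᶠ[𝓝 x] id := by
    filter_upwards [hopen.mem_nhds hx] with z hz using h.left z hz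
  have h3 : mfderiv (𝓡 d) (𝓡 d) (g ∘ f) x = mfderiv (𝓡 d) (𝓡 d) (id : X → X) x :=
    h2.mfderiv_eq
  have h5 : (mfderiv (𝓡 d) (𝓡 d) (id : X → X) x : E d →L[ℝ] E d) =
      ContinuousLinearMap.id ℝ (E d) := mfderiv_id
  have h6 : ((mfderiv (𝓡 d) (𝓡 d) g (f x)).comp (mfderiv (𝓡 d) (𝓡 d) f x) :
      E d →L[ℝ] E d) = ContinuousLinearMap.id ℝ (E d) := (h1.symm.trans h3).trans h5
  have h7 : ((mfderiv (𝓡 d) (𝓡 d) g (f x)).comp (mfderiv (𝓡 d) (𝓡 d) f x) :
      E d →L[ℝ] E d) u = u := by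
    rw [h6]
    rfl
  exact h7

theorem Inv.dg_df' (h : Inv (d := d) f g P) {y : Y} (hy : y ∉ P) (u : E d) :
    D (d := d) g y (D (d := d) f (g y) u) = u := by
  have h1 := h.dg_df (x := g y) (by rw [h.right y hy]; exact hy) u
  rwa [h.right y hy] at h1

/-- `g` is pseudoholomorphic -/
theorem Inv.holo (h : Inv (d := d) f g P) {JX : End d X} {JY : End d Y}
    (hh : ∀ (x : X) (v : E d), D (d := d) f x (JX x v) = JY (f x) (D (d := d) f x v)) {y : Y}
    (hy : y ∉ P) (v : E d) :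
    D (d := d) g y (JY y v) = JX (g y) (D (d := d) g y v) := by
  have h1 := hh (g y) (D (d := d) g y v)
  rw [h.df_dg hy, h.right y hy] at h1
  rw [← h1]
  exact h.dg_df' hy _

end

section

variable [IsManifold (𝓡 d) ∞ X] [IsManifold (𝓡 d) ∞ Y]
variable {f : X → Y} {g : Y → X} {P : Set Y}

theorem Inv.pb_eq (h : Inv (d := d) f g P) (σ : Form d X 2) {U : Set (E d)} {φ : E d → Y}
    (hU : IsOpen U) (hφ : ContMDiffOn (𝓡 d) (𝓡 d) ∞ φ U) (hP : ∀ p ∈ U, φ p ∉ P) {p : E d}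
    (hp : p ∈ U) : pb φ (pull (d := d) g σ) p = pb (g ∘ φ) σ p :=
  pb_pull (h.mdg (hP p hp)) ((hφ.contMDiffAt (hU.mem_nhds hp)).mdifferentiableAt (by simp))

theorem Inv.comp_smooth (h : Inv (d := d) f g P) {U : Set (E d)} {φ : E d → Y}
    (hφ : ContMDiffOn (𝓡 d) (𝓡 d) ∞ φ U) (hP : ∀ p ∈ U, φ p ∉ P) :
    ContMDiffOn (𝓡 d) (𝓡 d) ∞ (g ∘ φ) U := h.inv.comp hφ hP

theorem Inv.smoothOff (h : Inv (d := d) f g P) {σ : Form d X 2} (hσ : IsSmooth σ) :
    SmoothOff (pull (d := d) g σ) P := by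
  intro U φ hU hφ hP
  exact (hσ U (g ∘ φ) hU (h.comp_smooth hφ hP)).congr fun p hp => h.pb_eq σ hU hφ hP hp

theorem Inv.closedOff (h : Inv (d := d) f g P) {σ : Form d X 2} (hσ : IsClosedForm σ) :
    IsDOff (pull (d := d) g σ) 0 P := by
  intro U φ hU hφ hP p hp
  have h1 := hσ U (g ∘ φ) hU (h.comp_smooth hφ hP) p hp
  have h2 : pb φ (pull (d := d) g σ) =ᶠ[𝓝 p] pb (g ∘ φ) σ := by
    filter_upwards [hU.mem_nhds hp] with q hq using h.pb_eq σ hU hφ hP hq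
  rw [h2.extDeriv_eq]
  exact h1

/-- uniform taming of the pull-back -/
theorem Inv.utAt (h : Inv (d := d) f g P) [CompactSpace X] [T2Space X] [CompactSpace Y]
    [T2Space Y] {JX : End d X} {JY : End d Y} (hJX : IsAlmostComplex JX)
    (hh : ∀ (x : X) (v : E d), D (d := d) f x (JX x v) = JY (f x) (D (d := d) f x v))
    {σ : Form d X 2} (hσ : IsSmooth σ) (hσc : IsClosedForm σ) (hσt : ∀ x, TamesAt σ JX x)
    (y₀ : Y) : UTAt (pull (d := d) g σ) JY P y₀ := by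
  obtain ⟨m, F, hF, -, hFi⟩ := exists_embedding_euclidean_of_compact (I := 𝓡 d) (M := X)
  obtain ⟨m', F', hF', -, hFi'⟩ := exists_embedding_euclidean_of_compact (I := 𝓡 d) (M := Y)
  obtain ⟨-, c, hc, hcσ⟩ := taming_bounds hF hFi hJX hσ hσc hσt
  obtain ⟨ε, hε, hεG⟩ := diff_le hF hFi (G := F' ∘ f) (hF'.comp h.smooth)
  have htar : (chartAt (E d) y₀).target ∈ 𝓝 (chartAt (E d) y₀ y₀) :=
    (chartAt (E d) y₀).open_target.mem_nhds (mem_chart_target (E d) y₀)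
  obtain ⟨N, hN, hNn, hNt⟩ := near htar
  obtain ⟨c', C', hc', hC', hcC⟩ := Pool.Agent.Y44.SY.t_IMM d m' Y F' hF' hFi' y₀ N hN hNt
  refine ⟨c * (ε * c') ^ 2, by positivity, ?_⟩
  filter_upwards [hNn] with q hq hqP v
  have hqt := hNt hq
  set y := (chartAt (E d) y₀).symm q with hy
  have e1 : pb (chartAt (E d) y₀).symm (pull (d := d) g σ) q ![v, inChart JY y₀ q v] =
      (pull (d := d) g σ) y ![A y₀ q v, JY y (A y₀ q v)] := Q_eq _ _ _ hqt v
  rw [e1, pull_apply, h.holo hh hqP]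
  set u : E d := D (d := d) g y (A y₀ q v) with hu
  have h1 := hcσ (g y) u
  have h2 := hεG (g y) u
  have h3 : nm (F' ∘ f) (g y) u = nm F' y (A y₀ q v) := by
    have h4 : mfderiv (𝓡 d) (𝓡 m') (F' ∘ f) (g y) =
        (mfderiv (𝓡 d) (𝓡 m') F' (f (g y))).comp (mfderiv (𝓡 d) (𝓡 d) f (g y)) :=
      mfderiv_comp (g y) (hF'.mdifferentiableAt (by simp)) (h.mdf (g y))
    have h5 : nm (F' ∘ f) (g y) u = nm F' (f (g y)) (D (d := d) f (g y) u) := by
      unfold nm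
      rw [h4]
      rfl
    rw [h5, hu, h.df_dg hqP, h.right y hqP]
  have h4 : c' * ‖v‖ ≤ nm F' y (A y₀ q v) := (hcC q hq v).1
  rw [h3] at h2
  have h5 : ε * (c' * ‖v‖) ≤ nm F (g y) u := (mul_le_mul_of_nonneg_left h4 hε.le).trans h2
  have h6 : 0 ≤ ε * (c' * ‖v‖) := by positivity
  have h7 : (ε * (c' * ‖v‖)) ^ 2 ≤ nm F (g y) u ^ 2 := by gcongr
  calc c * (ε * c') ^ 2 * ‖v‖ ^ 2 = c * (ε * (c' * ‖v‖)) ^ 2 := by ring
    _ ≤ c * nm F (g y) u ^ 2 := mul_le_mul_of_nonneg_left h7 hc.le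
    _ ≤ _ := h1

theorem norm_le_sum {m : ℕ} (w : E m) : ‖w‖ ≤ ∑ i, |w i| := by
  rw [EuclideanSpace.norm_eq]
  refine Real.sqrt_le_iff.2 ⟨Finset.sum_nonneg fun i _ => abs_nonneg _, ?_⟩
  have h1 : ∀ i ∈ Finset.univ, ‖w i‖ ^ 2 ≤ |w i| * ∑ j, |w j| := by
    intro i _
    rw [Real.norm_eq_abs, sq]
    exact mul_le_mul_of_nonneg_left
      (Finset.single_le_sum (f := fun j => |w j|) (fun j _ => abs_nonneg _) (Finset.mem_univ i))
      (abs_nonneg _)
  refine (Finset.sum_le_sum h1).trans ?_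
  rw [← Finset.sum_mul, sq]

/-- growth of the pull-back -/
theorem Inv.grow (h : Inv (d := d) f g P) [CompactSpace X] [T2Space X]
    {JX : End d X} (hJX : IsAlmostComplex JX)
    {σ : Form d X 2} (hσ : IsSmooth σ) (hσc : IsClosedForm σ) (hσt : ∀ x, TamesAt σ JX x)
    {p : Y} (hp : p ∈ P) {b : ℝ} (hb : Grows (d := d) g P p b) :
    ∃ C : ℝ, ∀ᶠ q in 𝓝 (chartAt (E d) p p), (chartAt (E d) p).symm q ∉ P →
      ‖pb (chartAt (E d) p).symm (pull (d := d) g σ) q‖ ≤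
        C * ‖q - chartAt (E d) p p‖ ^ (-(2 * b)) := by
  obtain ⟨m, F, hF, -, hFi⟩ := exists_embedding_euclidean_of_compact (I := 𝓡 d) (M := X)
  obtain ⟨⟨C, hC, hCσ⟩, -⟩ := taming_bounds hF hFi hJX hσ hσc hσt
  have hsm : ∀ i : Fin m, SmoothFun (d := d) (fun x => F x i) := fun i =>
    ((EuclideanSpace.proj (𝕜 := ℝ) i : E m →L[ℝ] ℝ).contDiff.contMDiff).comp hF
  choose M hM using fun i => hb _ (hsm i)
  have htar : (chartAt (E d) p).target ∈ 𝓝 (chartAt (E d) p p) :=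
    (chartAt (E d) p).open_target.mem_nhds (mem_chart_target (E d) p)
  set S : ℝ := ∑ i, |M i| with hS
  have hS0 : 0 ≤ S := Finset.sum_nonneg fun i _ => abs_nonneg _
  refine ⟨C * S ^ 2, ?_⟩
  filter_upwards [htar, eventually_all.2 hM] with q hqt hq hqP
  set y := (chartAt (E d) p).symm q with hy
  have hne : q ≠ chartAt (E d) p p := by
    rintro rfl
    apply hqP
    rw [hy, (chartAt (E d) p).left_inv (mem_chart_source (E d) p)]
    exact hp
  have hr : 0 < ‖q - chartAt (E d) p p‖ := norm_pos_iff.2 (sub_ne_zero.2 hne)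
  set r := ‖q - chartAt (E d) p p‖ with hrd
  have hrb : 0 ≤ r ^ (-b) := Real.rpow_nonneg hr.le _
  have hd1 : MDifferentiableAt (𝓡 d) (𝓡 d) (chartAt (E d) p).symm q :=
    ((contMDiffOn_chart_symm (n := ∞)).contMDiffAt
      ((chartAt (E d) p).open_target.mem_nhds hqt)).mdifferentiableAt (by simp)
  have hd2 : MDifferentiableAt (𝓡 d) (𝓡 d) g y := h.mdg hqP
  have hd3 : MDifferentiableAt (𝓡 d) (𝓡 d) (g ∘ (chartAt (E d) p).symm) q := hd2.comp q hd1
  have hd4 : MDifferentiableAt (𝓡 d) (𝓡 m) F (g y) := hF.mdifferentiableAt (by simp)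
  -- the differential of `F ∘ g` in the chart
  have key : ∀ v : E d, nm F (g y) (D (d := d) g y (A p q v)) ≤ S * r ^ (-b) * ‖v‖ := by
    intro v
    have k1 : mfderiv (𝓡 d) (𝓡 m) (F ∘ (g ∘ (chartAt (E d) p).symm)) q =
        (mfderiv (𝓡 d) (𝓡 m) F (g y)).comp
          (mfderiv (𝓡 d) (𝓡 d) (g ∘ (chartAt (E d) p).symm) q) := mfderiv_comp q hd4 hd3
    have k2 : mfderiv (𝓡 d) (𝓡 d) (g ∘ (chartAt (E d) p).symm) q =
        (mfderiv (𝓡 d) (𝓡 d) g y).comp (mfderiv (𝓡 d) (𝓡 d) (chartAt (E d) p).symm q) :=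
      mfderiv_comp q hd2 hd1
    have k3 : mfderiv (𝓡 d) (𝓡 m) (F ∘ (g ∘ (chartAt (E d) p).symm)) q =
        fderiv ℝ (F ∘ (g ∘ (chartAt (E d) p).symm)) q := mfderiv_eq_fderiv
    have k4 : nm F (g y) (D (d := d) g y (A p q v)) =
        ‖fderiv ℝ (F ∘ (g ∘ (chartAt (E d) p).symm)) q v‖ := by
      rw [← k3, k1, k2]
      rfl
    have k5 : DifferentiableAt ℝ (F ∘ (g ∘ (chartAt (E d) p).symm)) q :=
      mdifferentiableAt_iff_differentiableAt.1 (hd4.comp q hd3)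
    have k6 : ∀ i : Fin m, (fderiv ℝ (F ∘ (g ∘ (chartAt (E d) p).symm)) q v) i =
        fderiv ℝ (fun q => F (g ((chartAt (E d) p).symm q)) i) q v := by
      intro i
      have e1 : (fun q => F (g ((chartAt (E d) p).symm q)) i) =
          (EuclideanSpace.proj (𝕜 := ℝ) i : E m →L[ℝ] ℝ) ∘
            (F ∘ (g ∘ (chartAt (E d) p).symm)) := rfl
      rw [e1, fderiv_comp q (ContinuousLinearMap.differentiableAt _) k5,
        ContinuousLinearMap.fderiv]
      rfl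
    rw [k4]
    refine (norm_le_sum _).trans ?_
    have k7 : ∀ i ∈ Finset.univ, |(fderiv ℝ (F ∘ (g ∘ (chartAt (E d) p).symm)) q v) i| ≤
        |M i| * (r ^ (-b) * ‖v‖) := by
      intro i _
      rw [k6 i]
      have k8 := hq i hqP
      have k9 : |fderiv ℝ (fun q => F (g ((chartAt (E d) p).symm q)) i) q v| ≤
          ‖fderiv ℝ (fun q => F (g ((chartAt (E d) p).symm q)) i) q‖ * ‖v‖ := by
        rw [← Real.norm_eq_abs]
        exact ContinuousLinearMap.le_opNorm _ v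
      refine k9.trans ?_
      rw [← mul_assoc]
      refine mul_le_mul_of_nonneg_right (k8.trans ?_) (norm_nonneg _)
      exact mul_le_mul_of_nonneg_right (le_abs_self _) hrb
    refine (Finset.sum_le_sum k7).trans ?_
    rw [← Finset.sum_mul, hS, mul_assoc]
  have hpow : r ^ (-(2 * b)) = r ^ (-b) * r ^ (-b) := by
    rw [← Real.rpow_add hr]
    congr 1
    ring
  refine ContinuousAlternatingMap.opNorm_le_bound _ (by positivity) fun w => ?_
  have e1 : pb (chartAt (E d) p).symm (pull (d := d) g σ) q w =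
      σ (g y) ![D (d := d) g y (A p q (w 0)), D (d := d) g y (A p q (w 1))] := by
    have e2 : w = ![w 0, w 1] := by
      funext i
      fin_cases i <;> rfl
    conv_lhs => rw [e2]
    rw [pb_apply2, pull_apply]
  rw [e1, Fin.prod_univ_two, Real.norm_eq_abs]
  refine (hCσ (g y) _ _).trans ?_
  have n0 : 0 ≤ nm F (g y) (D (d := d) g y (A p q (w 0))) := norm_nonneg _
  have n1 : 0 ≤ nm F (g y) (D (d := d) g y (A p q (w 1))) := norm_nonneg _
  calc C * nm F (g y) (D (d := d) g y (A p q (w 0))) *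
        nm F (g y) (D (d := d) g y (A p q (w 1)))
      ≤ C * (S * r ^ (-b) * ‖w 0‖) * (S * r ^ (-b) * ‖w 1‖) := by
        gcongr
        · exact key (w 0)
        · exact key (w 1)
    _ = C * S ^ 2 * r ^ (-(2 * b)) * (‖w 0‖ * ‖w 1‖) := by rw [hpow]; ring

/-- **Contraction.** -/
theorem contract (h : Inv (d := d) f g P) [CompactSpace X] [T2Space X] [CompactSpace Y]
    [T2Space Y] (hd : 4 ≤ d) (hP : P.Finite) {JX : End d X} {JY : End d Y}
    (hJX : IsAlmostComplex JX) (hJY : IsAlmostComplex JY)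
    (hh : ∀ (x : X) (v : E d), D (d := d) f x (JX x v) = JY (f x) (D (d := d) f x v))
    (hgr : ∀ p ∈ P, ∃ b : ℝ, Grows (d := d) g P p b ∧
      (b < 1 ∨ ∃ γ : ℝ, 0 < γ ∧ γ ≤ 1 ∧ HolAt JY γ p ∧ b < 1 + γ / 2))
    {σ : Form d X 2} (hσ : IsSmooth σ) (hσc : IsClosedForm σ) (hσt : ∀ x, TamesAt σ JX x)
    {U : Set Y} (hU : IsOpen U) (hPU : P ⊆ U) :
    ∃ (α : Form d Y 1) (η w : Form d Y 2), IsSmooth α ∧ IsSmooth η ∧ IsD α η ∧ IsSmooth w ∧
      IsClosedForm w ∧ (∀ y, TamesAt w JY y) ∧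
      ∀ y, y ∉ U → w y = (pull (d := d) g σ + η) y := by
  have hd0 : (0 : ℝ) < (d : ℝ) - 1 := by
    have : (4 : ℝ) ≤ d := by exact_mod_cast hd
    linarith
  refine mainS2 hd hJY h.closed (fun x₀ => ?_) (h.smoothOff hσ) (h.closedOff hσc)
    (fun p hp => ?_) (fun y hy v => ?_) (fun z hz => ?_) hU hPU
  · have := Measure.noAtoms_hausdorff (E d) hd0
    exact ((hP.inter_of_left _).image _).measure_zero _
  · obtain ⟨b, hb, hb'⟩ := hgr p hp
    obtain ⟨C, hC⟩ := h.grow hJX hσ hσc hσt hp hb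
    rcases hb' with hb' | ⟨γ, h1, h2, h3, h4⟩
    · exact Or.inl ⟨2 * b, C, by linarith, hC⟩
    · exact Or.inr ⟨γ, h1, h2, h3, 2 * b, C, by linarith, hC⟩
  · have e1 : (pull (d := d) g σ) y ![v, JY y v] =
        σ (g y) ![D (d := d) g y v, JX (g y) (D (d := d) g y v)] := by
      rw [pull_apply, h.holo hh hy]
    rw [e1]
    rcases eq_or_ne (D (d := d) g y v) 0 with h0 | h0
    · rw [h0]
      exact ((σ (g y)).map_coord_zero 0 rfl).ge
    · exact (hσt (g y) _ h0).le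
  · exact absurd (h.utAt hJX hh hσ hσc hσt z) hz

end

end Run7.h21.MD
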