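import Pool.Agent.N500.LS.Main2
import Pool.Agent.Y604.SY.Pull

/-!
# Pseudoholomorphic modifications at finitely many points: tools
-/

set_option autoImplicit false

open Set Filter Topology MeasureTheory
open scoped Manifold ContDiff

noncomputable section

namespace Run7.h21.MD

open Pool.Agent.Y501.SY
open Pool.Agent.Y455.SY (A B AB BA A_surj Q Q_eq)
open Pool.Agent.Y929.SY (ev_of_chart ev_to_chart near pb_apply2)

variable {d : ℕ} {X Y : Type} [TopologicalSpace X] [ChartedSpace (E d) X]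
  [TopologicalSpace Y] [ChartedSpace (E d) Y]

/-- the derivative, as a map of the model space -/
def D (F : X → Y) (x : X) : E d →L[ℝ] E d := mfderiv (𝓡 d) (𝓡 d) F x

theorem pull_apply (g : Y → X) (σ : Form d X 2) (y : Y) (u w : E d) :
    (pull (d := d) g σ) y ![u, w] = σ (g y) ![D g y u, D g y w] := by
  have h1 : (pull (d := d) g σ) y ![u, w] =
      σ (g y) (fun i => D g y ((![u, w] : Fin 2 → E d) i)) := rfl
  rw [h1]
  congr 1
  funext i
  fin_cases i <;> rfl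

theorem pb_pull {g : Y → X} {σ : Form d X 2} {φ : E d → Y} {p : E d}
    (hg : MDifferentiableAt (𝓡 d) (𝓡 d) g (φ p)) (hφ : MDifferentiableAt (𝓡 d) (𝓡 d) φ p) :
    pb φ (pull (d := d) g σ) p = pb (g ∘ φ) σ p := by
  have h : mfderiv (𝓡 d) (𝓡 d) (g ∘ φ) p =
      (mfderiv (𝓡 d) (𝓡 d) g (φ p)).comp (mfderiv (𝓡 d) (𝓡 d) φ p) := mfderiv_comp p hg hφ
  unfold pb
  rw [h]
  rfl

section

variable [IsManifold (𝓡 d) ∞ X]

/-- bounds for the differential of a map to a Euclidean space -/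
theorem diff_le [CompactSpace X] {m m' : ℕ} {F : X → E m} (hF : ContMDiff (𝓡 d) (𝓡 m) ∞ F)
    (hFi : ∀ x, Function.Injective (mfderiv (𝓡 d) (𝓡 m) F x)) {G : X → E m'}
    (hG : ContMDiff (𝓡 d) (𝓡 m') ∞ G) :
    ∃ ε : ℝ, 0 < ε ∧ ∀ (x : X) (u : E d), ε * nm G x u ≤ nm F x u := by
  obtain ⟨ε, hε, h⟩ := unif (isCompact_univ (X := X))
    (fun ε y => ∀ u : E d, ε * nm G y u ≤ nm F y u)
    (fun ε ε' y hle hp u => by
      refine le_trans ?_ (hp u)
      exact mul_le_mul_of_nonneg_right hle (norm_nonneg _)) (by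
    intro x₀ _
    have htar : (chartAt (E d) x₀).target ∈ 𝓝 (chartAt (E d) x₀ x₀) :=
      (chartAt (E d) x₀).open_target.mem_nhds (mem_chart_target (E d) x₀)
    obtain ⟨N, hN, hNn, hNt⟩ := near htar
    obtain ⟨c, C, hc, hC, hcC⟩ := Pool.Agent.Y44.SY.t_IMM d m X F hF hFi x₀ N hN hNt
    have hG2 : ContDiffOn ℝ ∞ (G ∘ (chartAt (E d) x₀).symm) (chartAt (E d) x₀).target :=
      contMDiffOn_iff_contDiffOn.1 (hG.comp_contMDiffOn contMDiffOn_chart_symm)
    have hG3 : ContinuousOn (fderiv ℝ (G ∘ (chartAt (E d) x₀).symm)) (chartAt (E d) x₀).target :=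
      hG2.continuousOn_fderiv_of_isOpen (chartAt (E d) x₀).open_target (by simp)
    obtain ⟨M, hM⟩ := hN.exists_bound_of_continuousOn (hG3.mono hNt)
    have hM0 : 0 < |M| + 1 := by positivity
    refine ⟨c / (|M| + 1), by positivity, ?_⟩
    apply ev_of_chart (d := d)
    filter_upwards [hNn] with p hp u
    have hpt := hNt hp
    obtain ⟨v, rfl⟩ := A_surj x₀ hpt u
    have h1 : MDifferentiableAt (𝓡 d) (𝓡 m') G ((chartAt (E d) x₀).symm p) :=
      hG.mdifferentiableAt (by simp)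
    have h2 : MDifferentiableAt (𝓡 d) (𝓡 d) (chartAt (E d) x₀).symm p :=
      ((contMDiffOn_chart_symm (n := ∞)).contMDiffAt
        ((chartAt (E d) x₀).open_target.mem_nhds hpt)).mdifferentiableAt (by simp)
    have h3 : mfderiv (𝓡 d) (𝓡 m') (G ∘ (chartAt (E d) x₀).symm) p =
      (mfderiv (𝓡 d) (𝓡 m') G ((chartAt (E d) x₀).symm p)).comp
        (mfderiv (𝓡 d) (𝓡 d) (chartAt (E d) x₀).symm p) := mfderiv_comp p h1 h2
    have h4 : mfderiv (𝓡 d) (𝓡 m') (G ∘ (chartAt (E d) x₀).symm) p =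
      fderiv ℝ (G ∘ (chartAt (E d) x₀).symm) p := mfderiv_eq_fderiv
    have h5 : nm G ((chartAt (E d) x₀).symm p) (A x₀ p v) =
        ‖fderiv ℝ (G ∘ (chartAt (E d) x₀).symm) p v‖ := by
      rw [← h4, h3]
      rfl
    have h6 : ‖fderiv ℝ (G ∘ (chartAt (E d) x₀).symm) p v‖ ≤ (|M| + 1) * ‖v‖ := by
      refine (ContinuousLinearMap.le_opNorm _ _).trans ?_
      refine mul_le_mul_of_nonneg_right ?_ (norm_nonneg _)
      exact (hM p hp).trans ((le_abs_self M).trans (by linarith))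
    have h7 : c * ‖v‖ ≤ nm F ((chartAt (E d) x₀).symm p) (A x₀ p v) := (hcC p hp v).1
    rw [h5]
    calc c / (|M| + 1) * ‖fderiv ℝ (G ∘ (chartAt (E d) x₀).symm) p v‖
        ≤ c / (|M| + 1) * ((|M| + 1) * ‖v‖) := mul_le_mul_of_nonneg_left h6 (by positivity)
      _ = c * ‖v‖ := by field_simp
      _ ≤ _ := h7)
  exact ⟨ε, hε, fun x u => h x (mem_univ x) u⟩

/-- bounds for a taming form -/
theorem taming_bounds [CompactSpace X] [T2Space X] {m : ℕ} {F : X → E m}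
    (hF : ContMDiff (𝓡 d) (𝓡 m) ∞ F)
    (hFi : ∀ x, Function.Injective (mfderiv (𝓡 d) (𝓡 m) F x)) {J : End d X}
    (hJ : IsAlmostComplex J) {σ : Form d X 2} (hσ : IsSmooth σ) (hσc : IsClosedForm σ)
    (hσt : ∀ x, TamesAt σ J x) :
    (∃ C : ℝ, 0 < C ∧ ∀ (x : X) (u w : E d), |σ x ![u, w]| ≤ C * nm F x u * nm F x w) ∧
    ∃ c : ℝ, 0 < c ∧ ∀ (x : X) (u : E d), c * nm F x u ^ 2 ≤ σ x ![u, J x u] := by
  have hb : ∀ x, BddAt σ ∅ x := by
    intro x
    have h4 : ContinuousAt (pb (chartAt (E d) x).symm σ) (chartAt (E d) x x) :=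
      ((hσ _ _ (chartAt (E d) x).open_target (contMDiffOn_chart_symm)).continuousOn).continuousAt
        ((chartAt (E d) x).open_target.mem_nhds (mem_chart_target (E d) x))
    refine ⟨‖pb (chartAt (E d) x).symm σ (chartAt (E d) x x)‖ + 1, ?_⟩
    filter_upwards [h4.norm.eventually_lt_const (lt_add_one _)] with p hp _
    exact hp.le
  have hpos : ∀ x, x ∉ (∅ : Set X) → ∀ v : TangentSpace (𝓡 d) x, 0 ≤ σ x ![v, J x v] := by
    intro x _ v
    rcases eq_or_ne v 0 with rfl | hv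
    · exact ((σ x).map_coord_zero 0 rfl).ge
    · exact (hσt x v hv).le
  obtain ⟨s, hs, hU⟩ := Pool.Agent.Y929.SY.t_GLOB Pool.Agent.Y44.SY.t_IMM Pool.Agent.Y44.SY.t_QB
    d m X F hF hFi J hJ σ σ ∅ isClosed_empty (fun U φ hU hφ _ => hσ U φ hU hφ)
    (fun U φ hU hφ _ => hσc U φ hU hφ) hσ hσc hb hpos (fun x => Or.inr (hσt x))
  obtain ⟨B', hB, hB'⟩ := hU.bdd
  obtain ⟨c, hc, hc'⟩ := hU.pos
  have e : ∀ (x : X) (u w : E d), (σ + s • σ) x ![u, w] = (1 + s) * σ x ![u, w] := by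
    intro x u w
    have : (σ + s • σ) x ![u, w] = σ x ![u, w] + s * σ x ![u, w] := rfl
    rw [this]
    ring
  have hs1 : 0 < 1 + s := by linarith
  refine ⟨⟨B' / (1 + s), by positivity, fun x u w => ?_⟩, ⟨c / (1 + s), by positivity, fun x u => ?_⟩⟩
  · have h1 := hB' x (notMem_empty x) u w
    rw [e x u w, abs_mul, abs_of_pos hs1] at h1
    have h2 : |σ x ![u, w]| = ((1 + s) * |σ x ![u, w]|) / (1 + s) := by field_simp
    rw [h2]
    calc ((1 + s) * |σ x ![u, w]|) / (1 + s) ≤ (B' * nm F x u * nm F x w) / (1 + s) :=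
          div_le_div_of_nonneg_right h1 hs1.le
      _ = _ := by ring
  · have h1 := hc' x (notMem_empty x) u
    rw [e x u (J x u)] at h1
    have h2 : σ x ![u, J x u] = ((1 + s) * σ x ![u, J x u]) / (1 + s) := by field_simp
    rw [h2]
    calc c / (1 + s) * nm F x u ^ 2 = (c * nm F x u ^ 2) / (1 + s) := by ring
      _ ≤ _ := div_le_div_of_nonneg_right h1 hs1.le

end

end Run7.h21.MD
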